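import Mathlib
import Pool.Agent.W708.CA.Core

set_option autoImplicit false

/-! An ergodic `A`-invariant probability measure on `G/Γ` which gives positive mass to one orbit of the
centraliser of `A` is homogeneous. -/

namespace Pool.Agent.Results.MP_67388f_an.ChargedCentraliserOrbit

open MeasureTheory

/-- `G` is a locally compact second countable group (for instance a product of groups of points over
the completions `ℚ_v`), `Γ` a closed subgroup (for instance an `S`-arithmetic lattice), `A` an abelian
subgroup, `μ` a probability measure on `G/Γ`, invariant and ergodic under `A`.  If some orbit of the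
centraliser of `A` has positive `μ`-measure, then `μ` is supported on one orbit of its own stabiliser. -/
theorem result {G : Type*} [Group G] [TopologicalSpace G] [IsTopologicalGroup G]
    [SecondCountableTopology G] [LocallyCompactSpace G] [T2Space G]
    (Γ : Subgroup G) (hΓ : IsClosed (Γ : Set G)) [MeasurableSpace (G ⧸ Γ)] [BorelSpace (G ⧸ Γ)]
    (A : Subgroup G) (hA : ∀ a ∈ A, ∀ b ∈ A, a * b = b * a)
    (μ : Measure (G ⧸ Γ)) [IsProbabilityMeasure μ]
    (hinv : ∀ a ∈ A, μ.map (fun x => a • x) = μ)
    (herg : ∀ E : Set (G ⧸ Γ), MeasurableSet E → (∀ a ∈ A, (fun x => a • x) ⁻¹' E = E) →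
      μ E = 0 ∨ μ Eᶜ = 0)
    (x₀ : G ⧸ Γ) (hpos : μ {x | ∃ c : G, (∀ a ∈ A, a * c = c * a) ∧ x = c • x₀} ≠ 0) :
    ∃ x₁ : G ⧸ Γ, ∀ᵐ x ∂μ, ∃ g : G, μ.map (fun y => g • y) = μ ∧ x = g • x₁ :=
  Pool.Agent.W708.CA.final Γ hΓ A hA μ hinv herg x₀ hpos

end Pool.Agent.Results.MP_67388f_an.ChargedCentraliserOrbit
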